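import Pool.Agent.MP_ca0a54_nt.H29.Spec
import Pool.Agent.MP_ca0a54_nt.H69.GKLB
import Pool.Agent.MP_ca0a54_nt.H91.SC
import Pool.Agent.MP_ca0a54_nt.H88.AR1
import Pool.Agent.MP_ca0a54_nt.L0.ZetaA

/-!
Row REP: the mollifier is bounded by an average of `ζ(s + y) / ζ(s)`.
-/

open Complex MeasureTheory Filter Topology

namespace Pool.Agent.MP_ca0a54_nt.H16

open Pool.Agent.MP_ca0a54_nt.L0 Pool.Agent.MP_ca0a54_nt.H24 Pool.Agent.MP_ca0a54_nt.H29
  Pool.Agent.MP_ca0a54_nt.H69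

theorem cut_tail {F : ℝ → ℂ} (hF : Integrable F) {M X : ℝ} (hX : 0 ≤ X)
    (h : ∀ s, ‖F s‖ ≤ M * Real.exp (-s ^ 2)) :
    ‖(∫ s, F s) - ∫ s in (-X)..X, F s‖ ≤ 3 * M * Real.exp (-X ^ 2 / 2) := by
  have hM : 0 ≤ M := by simpa using (norm_nonneg _).trans (h 0)
  have hi := (g_int 0).const_mul (M * Real.exp (-X ^ 2 / 2))
  rw [intervalIntegral.integral_of_le (by linarith),
    ← integral_add_compl (measurableSet_Ioc (a := -X) (b := X)) hF, add_sub_cancel_left]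
  refine (norm_integral_le_of_norm_le hi.integrableOn ?_).trans ?_
  · refine ae_restrict_of_forall_mem measurableSet_Ioc.compl fun s hs => (h s).trans ?_
    rw [mul_assoc, ← Real.exp_add]
    refine mul_le_mul_of_nonneg_left (Real.exp_le_exp.2 ?_) hM
    have h1 : X ^ 2 ≤ s ^ 2 := by
      rcases not_and_or.1 hs with h2 | h2
      · nlinarith [not_lt.1 h2]
      · nlinarith [not_le.1 h2]
    linarith
  · refine (setIntegral_le_integral hi (Eventually.of_forall fun s => by positivity)).trans ?_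
    rw [integral_const_mul]
    have h1 := g_val 0
    have h2 : 0 ≤ M * Real.exp (-X ^ 2 / 2) := by positivity
    nlinarith

theorem rect_le {H : ℂ → ℂ} {X a b B : ℝ} (hX : 0 ≤ X) (hab : a ≤ b) (hl : b - a ≤ 1)
    (hH : DifferentiableOn ℂ H {z | |z.re| ≤ X ∧ a ≤ z.im ∧ z.im ≤ b})
    (hB : ∀ z : ℂ, |z.re| = X → a ≤ z.im → z.im ≤ b → ‖H z‖ ≤ B) :
    ‖(∫ s in (-X)..X, H (s + a * I)) - ∫ s in (-X)..X, H (s + b * I)‖ ≤ 2 * B := by
  have hB0 : 0 ≤ B :=
    (norm_nonneg _).trans (hB (X + a * I) (by simpa using hX) (by simp) (by simpa using hab))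
  have hv : ∀ p : ℝ, |p| = X → ‖∫ t in a..b, H (p + t * I)‖ ≤ B := by
    intro p hp
    refine (intervalIntegral.norm_integral_le_of_norm_le_const (C := B) fun t ht => ?_).trans ?_
    · rw [Set.uIoc_of_le hab] at ht
      exact hB _ (by simpa using hp) (by simpa using ht.1.le) (by simpa using ht.2)
    · rw [abs_of_nonneg (by linarith)]
      exact mul_le_of_le_one_right hB0 hl
  have h4 := integral_boundary_rect_eq_zero_of_differentiableOn H ⟨-X, a⟩ ⟨X, b⟩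
    (hH.mono fun z hz => by
      have h1 := hz.1
      have h2 := hz.2
      simp only [Set.mem_preimage, Set.uIcc_of_le hab,
        Set.uIcc_of_le (show -X ≤ X by linarith)] at h1 h2
      exact ⟨abs_le.2 h1, h2⟩)
  simp only [smul_eq_mul] at h4
  have h5 : (∫ s in (-X)..X, H (s + a * I)) - ∫ s in (-X)..X, H (s + b * I) =
      I * (∫ t in a..b, H ((-X : ℝ) + t * I)) - I * ∫ t in a..b, H (X + t * I) := by
    linear_combination h4
  rw [h5]
  refine (norm_sub_le _ _).trans ?_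
  rw [norm_mul, norm_mul, norm_I, one_mul, one_mul]
  linarith [hv (-X) (by rw [abs_neg, abs_of_nonneg hX]), hv X (abs_of_nonneg hX)]

theorem tl_le {r : ℕ → ℂ} (hr : ∀ n, ‖r n‖ ≤ 1) {N : ℕ} {l g : ℝ} (hg : 0 ≤ g)
    (hl : ∀ n : ℕ, N < n → l ≤ Real.log n) {z : ℂ} (hz : z.im ≤ -(g + 3 / 4)) :
    ‖DD r z - dp r N z‖ ≤ Z (5 / 4) * Real.exp (-g * l) := by
  have hr' : ∀ n : ℕ, n ≠ 0 → ‖r n‖ ≤ 1 * Real.exp (0 * Real.log n) := fun n _ => by
    simpa using hr n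
  have h0 : (1 / 2 + I * z).re = 1 / 2 - z.im := by simp [sub_eq_add_neg]
  have h1 := (ls_bound (s := 1 / 2 + I * z) (α := 5 / 4) (by norm_num) hr' zero_le_one
    (by rw [h0]; linarith)).1
  have h4 := h1.LSeriesHasSum.sub (ls_cut r N z)
  have h5 : ∀ n : ℕ, n ≠ 0 → ‖(r - cut r N) n‖ ≤
      Real.exp (-g * l) * Real.exp (g * Real.log n) := by
    intro n _
    rw [Pi.sub_apply, cut]
    split_ifs with h
    · rw [sub_self, norm_zero]
      positivity
    · rw [sub_zero, ← Real.exp_add]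
      refine (hr n).trans (Real.one_le_exp ?_)
      nlinarith [mul_le_mul_of_nonneg_left (hl n (not_le.1 h)) hg]
  have h7 := (ls_bound (s := 1 / 2 + I * z) (α := 5 / 4) (by norm_num) h5 (by positivity)
    (by rw [h0]; linarith)).2
  rw [h4.LSeries_eq] at h7
  rw [mul_comm]
  exact h7

theorem rc_le {y : ℝ} (hy : 0 ≤ y) (n : ℕ) : ‖rc y 0 n‖ ≤ 1 :=
  (H88.part5 y hy n).1.trans (H88.part5 y hy n).2.1

theorem rc_le' {y : ℝ} (hy : 0 ≤ y) (n : ℕ) (_ : n ≠ 0) :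
    ‖rc y 0 n‖ ≤ 1 * Real.exp (0 * Real.log n) := by
  simpa using rc_le hy n

theorem DD_rho {y : ℝ} (hy : 0 ≤ y) {z : ℂ} (hz : z.im ≤ -1) : DD (rc y 0) z = rho y z := by
  have h := (H88.part3 y 0 (1 / 2 + I * z) (by simp; linarith) (by simp; linarith)).2
  rw [DD, h, rho, zf, zf, add_zero]
  congr 2
  linear_combination (y : ℂ) * I_mul_I

section
variable {ξ Δ L : ℝ} {k : ℂ → ℂ} (hk : Ker ξ Δ k)
include hk

theorem top_le (hΔ : 0 < Δ) (hL : 1 ≤ L) (h2 : ξ + Δ ≤ L) {ζ : ℂ} (h8 : ζ.im = -1 / L) :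
    ‖k ζ / ζ‖ ≤ 16 * km Δ ζ := by
  have hL0 : 0 < L := by linarith
  have h7 := hk.b2 ζ
  have h11 : 0 ≤ km Δ ζ := by
    unfold km
    positivity
  have h12 : mx ξ Δ (-1 / L) ≤ Real.exp 1 := by
    refine mx_le ?_ ?_
    · rw [← mul_div_assoc, div_le_one hL0]
      linarith
    · rw [← mul_div_assoc, div_le_one hL0]
      linarith
  have h13 : Real.exp ((-1 / L) ^ 2) ≤ Real.exp 1 := by
    refine Real.exp_le_exp.2 ?_
    rw [div_pow, div_le_one (by positivity)]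
    nlinarith
  have h14 : Real.exp 1 * Real.exp 1 ≤ 8 := by
    nlinarith [Real.exp_one_lt_d9, Real.exp_pos 1]
  have h15 := mx_pos ξ Δ (-1 / L)
  rw [h8] at h7
  calc _ ≤ 2 * Real.exp ((-1 / L) ^ 2) * mx ξ Δ (-1 / L) * km Δ ζ := h7
    _ ≤ 2 * Real.exp 1 * Real.exp 1 * km Δ ζ := by gcongr
    _ ≤ _ := by nlinarith

theorem side_le (hξ : 0 ≤ ξ) (hΔ : 0 < Δ) (h2 : ξ + Δ ≤ L) {ζ : ℂ} (h1 : -1 ≤ ζ.im)
    (h0 : ζ.im ≤ 0) (hn : 1 ≤ ‖ζ‖) :
    ‖k ζ / ζ‖ ≤ 2 * Real.exp (1 + L) * Real.exp (-ζ.re ^ 2) := by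
  have h3 : mx ξ Δ ζ.im ≤ Real.exp L := mx_le (by nlinarith) (by nlinarith)
  have h4 : Real.exp (ζ.im ^ 2 - ζ.re ^ 2) ≤ Real.exp (1 - ζ.re ^ 2) :=
    Real.exp_le_exp.2 (by nlinarith)
  have h5 := mx_pos ξ Δ ζ.im
  rw [norm_div]
  calc _ ≤ ‖k ζ‖ := div_le_self (norm_nonneg _) hn
    _ ≤ 2 * Real.exp (ζ.im ^ 2 - ζ.re ^ 2) * mx ξ Δ ζ.im := hk.b1 ζ
    _ ≤ 2 * Real.exp (1 - ζ.re ^ 2) * Real.exp L := by gcongr
    _ = _ := by
      rw [mul_assoc, mul_assoc, ← Real.exp_add, ← Real.exp_add]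
      congr 2
      ring

theorem ident {y G : ℝ} (hy : 0 ≤ y) (hL : 1 ≤ L) (hG : 1 ≤ G) (N : ℕ) {w : ℂ} (hw : w.im ≤ 0) :
    (Integrable fun s : ℝ => rho y (w + (s + (-1 : ℝ) * I)) *
      (k (s + (-1 : ℝ) * I) / (s + (-1 : ℝ) * I))) ∧
    dp (fun n => rc y 0 n * J k 0 (fun ζ => np (0 + I * ζ) n) (-1 / L)) N w =
      (∫ s : ℝ, rho y (w + (s + (-1 : ℝ) * I)) * (k (s + (-1 : ℝ) * I) / (s + (-1 : ℝ) * I))) -
        J k w (fun z => DD (rc y 0) z - dp (rc y 0) N z) (w.im - G) := by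
  have hy1 : -1 / L < 0 := div_neg_of_neg_of_pos (by norm_num) (by linarith)
  have hy2 : -1 ≤ -1 / L := by
    rw [le_div_iff₀ (by linarith)]
    linarith
  have hD : Bd (DD (rc y 0)) (w.im - G) (w.im - 1) :=
    (Bd.DD (α := 5 / 4) (c := 1) (by norm_num) (rc_le' hy) zero_le_one (by norm_num)
      (w.im - G)).mono le_rfl (by linarith)
  have hD1 : Bd (DD (rc y 0)) (w.im - 1) (w.im - 1) := hD.mono (by linarith) le_rfl
  have hne : w.im ≠ w.im - 1 := by linarith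
  have hid : ∀ s : ℝ, DD (rc y 0) ((s + w.re : ℝ) + (w.im - 1 : ℝ) * I) *
      k ((s + w.re : ℝ) + (w.im - 1 : ℝ) * I - w) / ((s + w.re : ℝ) + (w.im - 1 : ℝ) * I - w) =
      rho y (w + (s + (-1 : ℝ) * I)) * (k (s + (-1 : ℝ) * I) / (s + (-1 : ℝ) * I)) := by
    intro s
    have h2 : ((s + w.re : ℝ) : ℂ) + (w.im - 1 : ℝ) * I = w + (s + (-1 : ℝ) * I) := by
      apply Complex.ext <;> simp [add_comm, sub_eq_add_neg]
    rw [h2, add_sub_cancel_left, DD_rho hy (by simp; linarith), mul_div_assoc]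
  refine ⟨((pp_int (hD1.ga hk w) hne).comp_add_right w.re).congr (Eventually.of_forall hid), ?_⟩
  have i1 := J_ds hk (rc y 0) (Finset.Icc 1 N) w hy1.ne
  have i2 := J_shift hk (w := w) H91.shift
    (Bd.ds (rc y 0) (Finset.Icc 1 N) (w.im - 1) (w.im + -1 / L)) (by linarith)
    (Or.inr (by linarith))
  have i3 := J_add hk (hD1.sub (Bd.dp (rc y 0) N _ _)) (Bd.ds (rc y 0) (Finset.Icc 1 N) _ _) hne
  have i4 := J_shift hk (w := w) H91.shift (hD.sub (Bd.dp (rc y 0) N _ _)) (by linarith)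
    (Or.inr (by linarith))
  have i5 : J k w (fun z => DD (rc y 0) z - dp (rc y 0) N z + ds (rc y 0) (Finset.Icc 1 N) z)
      (w.im - 1) = ∫ s : ℝ, rho y (w + (s + (-1 : ℝ) * I)) *
        (k (s + (-1 : ℝ) * I) / (s + (-1 : ℝ) * I)) := by
    simp only [dp, sub_add_cancel]
    unfold J PP
    rw [← integral_add_right_eq_self _ w.re]
    exact integral_congr_ae (Eventually.of_forall hid)
  rw [dp, ← i1, ← i2, ← i5, i3, i4]
  ring

theorem chi_one {G l : ℝ} (hL : 0 < L) (hG : 1 ≤ G) (hΔ : 0 < Δ) {n : ℕ} (hn : Real.log n ≤ l) :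
    ‖J k 0 (fun ζ => np (0 + I * ζ) n) (-1 / L) - 2 * Real.pi * I‖ ≤
      24 * Real.exp (G ^ 2) * 1 * Real.exp ((l - ξ) * G) := by
  have hy1 : -1 / L < 0 := div_neg_of_neg_of_pos (by norm_num) hL
  have h1 := J_pole hk (w := 0) H91.pole (Bd.np 0 n (-1 / L) G) (by simpa using hy1)
    (by simp; linarith)
  have h2 : J k 0 (fun ζ => np (0 + I * ζ) n) (-1 / L) - 2 * Real.pi * I =
      J k 0 (fun ζ => np (0 + I * ζ) n) G := by
    have h3 : np (0 + I * 0) n = 1 := by simp [np]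
    rw [h3] at h1
    linear_combination h1
  rw [h2]
  refine J_norm hk (p := l * G) (q := -ξ * G) (fun x => le_mul_exp ?_) ?_ ?_ (by simp) ?_
    zero_le_one (le_of_eq (by ring))
  · rw [norm_np, one_mul]
    refine Real.exp_le_exp.2 ?_
    simp only [zero_add, I_mul_re, add_im, ofReal_im, mul_im, ofReal_re, I_im, I_re, mul_one,
      mul_zero, add_zero, neg_neg]
    nlinarith
  · rw [zero_im, sub_zero, abs_of_nonneg (by linarith)]
    linarith
  · rw [zero_im, sub_zero, abs_of_nonneg (by linarith)]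
  · rw [zero_im, sub_zero]
    nlinarith

theorem core_le (hξ : 0 ≤ ξ) (hΔ : 0 < Δ) (hL : 1 ≤ L) (h2 : ξ + Δ ≤ L) {y X G l B : ℝ}
    (hy : 0 ≤ y) (hX : 1 ≤ X) (hG : 1 ≤ G) {N : ℕ} (hl : ∀ n : ℕ, N < n → l ≤ Real.log n) {w : ℂ}
    (hw : w.im ≤ 0)
    (hd : DifferentiableOn ℂ (fun ζ => rho y (w + ζ))
      {z | |z.re| ≤ X ∧ -1 ≤ z.im ∧ z.im ≤ -1 / L})
    (hB : ∀ ζ : ℂ, |ζ.re| = X → -1 ≤ ζ.im → ζ.im ≤ -1 / L → ‖rho y (w + ζ)‖ ≤ B) :
    0 ≤ ∫ s in (-X)..X, ‖rho y (w + (s + (-1 / L : ℝ) * I))‖ * km Δ (s + (-1 / L : ℝ) * I) ∧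
    ‖dp (fun n => rc y 0 n * J k 0 (fun ζ => np (0 + I * ζ) n) (-1 / L)) N w‖ ≤
      16 * (∫ s in (-X)..X, ‖rho y (w + (s + (-1 / L : ℝ) * I))‖ * km Δ (s + (-1 / L : ℝ) * I)) +
        2 * (B * (2 * Real.exp (1 + L) * Real.exp (-X ^ 2))) +
        3 * (Z (5 / 4) * (2 * Real.exp (1 + L))) * Real.exp (-X ^ 2 / 2) +
        24 * Real.exp (G ^ 2) * Z (5 / 4) * Real.exp (-(G - 3 / 4) * l + (ξ + Δ) * G) := by
  have hy1 : -1 / L < 0 := div_neg_of_neg_of_pos (by norm_num) (by linarith)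
  have hy2 : -1 ≤ -1 / L := by
    rw [le_div_iff₀ (by linarith)]
    linarith
  have hZ := Z_ge (show (1 : ℝ) < 5 / 4 by norm_num)
  have hXX : -X ≤ X := by linarith
  have him : ∀ s t : ℝ, ((s : ℂ) + t * I).im = t := fun s t => by simp
  have hre : ∀ s t : ℝ, ((s : ℂ) + t * I).re = s := fun s t => by simp
  have hkm : ∀ ζ : ℂ, 0 ≤ km Δ ζ := fun ζ => by
    unfold km
    positivity
  refine ⟨intervalIntegral.integral_nonneg hXX fun s _ => mul_nonneg (norm_nonneg _) (hkm _), ?_⟩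
  obtain ⟨hi, hid⟩ := ident hk hy hL hG N hw
  have e1 : ‖J k w (fun z => DD (rc y 0) z - dp (rc y 0) N z) (w.im - G)‖ ≤
      24 * Real.exp (G ^ 2) * Z (5 / 4) * Real.exp (-(G - 3 / 4) * l + (ξ + Δ) * G) := by
    refine J_norm hk (p := -(G - 3 / 4) * l) (q := (ξ + Δ) * G) (fun x => le_mul_exp ?_) ?_ ?_ ?_
      (le_of_eq (by ring)) (by linarith) le_rfl
    · exact tl_le (rc_le hy) (by linarith) hl (by rw [him]; linarith)
    · rw [sub_sub_cancel_left, abs_neg, abs_of_nonneg (by linarith)]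
      linarith
    · rw [sub_sub_cancel_left, abs_neg, abs_of_nonneg (by linarith)]
    · nlinarith
  have e2 := cut_tail hi (M := Z (5 / 4) * (2 * Real.exp (1 + L))) (X := X) (by linarith) fun s => by
    have h3 : (w + (s + (-1 : ℝ) * I)).im ≤ -1 := by
      rw [add_im, him]
      linarith
    have h4 := DD_le (α := 5 / 4) (c := 1) (by norm_num) (rc_le' hy) zero_le_one (by norm_num) h3
    have h5 := side_le hk hξ hΔ h2 (ζ := s + (-1 : ℝ) * I) (by rw [him]) (by rw [him]; norm_num)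
      (by simpa using abs_im_le_norm (s + (-1 : ℝ) * I))
    rw [DD_rho hy h3, one_mul] at h4
    rw [hre] at h5
    rw [norm_mul, mul_assoc]
    exact mul_le_mul h4 h5 (norm_nonneg _) (by linarith)
  have hH : DifferentiableOn ℂ (fun ζ => rho y (w + ζ) * (k ζ / ζ))
      {z | |z.re| ≤ X ∧ -1 ≤ z.im ∧ z.im ≤ -1 / L} := by
    refine hd.mul (hk.diff.differentiableOn.div differentiableOn_id fun z hz h0 => ?_)
    have h3 := hz.2.2
    rw [show z = 0 from h0, zero_im] at h3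
    linarith
  have e3 := rect_le (B := B * (2 * Real.exp (1 + L) * Real.exp (-X ^ 2))) (by linarith) hy2
    (by linarith) hH fun z h3 h4 h5 => by
      have h6 := side_le hk hξ hΔ h2 h4 (by linarith) (hX.trans (h3 ▸ abs_re_le_norm z))
      have h7 := hB z h3 h4 h5
      rw [← sq_abs, h3] at h6
      rw [norm_mul]
      exact mul_le_mul h7 h6 (norm_nonneg _) ((norm_nonneg _).trans h7)
  have hc : ContinuousOn (fun s : ℝ => ‖rho y (w + (s + (-1 / L : ℝ) * I))‖ *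
      km Δ (s + (-1 / L : ℝ) * I)) (Set.uIcc (-X) X) := by
    have hne : ∀ s : ℝ, ‖(s : ℂ) + (-1 / L : ℝ) * I‖ ≠ 0 := fun s h0 => by
      have h3 := him s (-1 / L)
      rw [norm_eq_zero.1 h0, zero_im] at h3
      linarith
    refine ContinuousOn.mul (ContinuousOn.norm ?_) (Continuous.continuousOn ?_)
    · refine hd.continuousOn.comp (f := fun s : ℝ => (s : ℂ) + (-1 / L : ℝ) * I) (by fun_prop)
        fun s hs => ?_
      rw [Set.uIcc_of_le hXX] at hs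
      exact ⟨by rw [hre]; exact abs_le.2 hs, by rw [him]; exact hy2, by rw [him]⟩
    · unfold km
      refine Continuous.mul (by fun_prop) (Continuous.min ?_ ?_)
      · exact continuous_const.div (by fun_prop) hne
      · exact continuous_const.div (by fun_prop) fun s =>
          mul_ne_zero hΔ.ne' (pow_ne_zero 2 (hne s))
  have e4 : ‖∫ s in (-X)..X, rho y (w + (s + (-1 / L : ℝ) * I)) *
      (k (s + (-1 / L : ℝ) * I) / (s + (-1 / L : ℝ) * I))‖ ≤
      16 * ∫ s in (-X)..X, ‖rho y (w + (s + (-1 / L : ℝ) * I))‖ *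
        km Δ (s + (-1 / L : ℝ) * I) := by
    rw [← intervalIntegral.integral_const_mul]
    refine intervalIntegral.norm_integral_le_of_norm_le hXX (Eventually.of_forall fun s _ => ?_)
      (hc.intervalIntegrable.const_mul 16)
    rw [norm_mul, mul_left_comm]
    exact mul_le_mul_of_nonneg_left (top_le hk hΔ hL h2 (him _ _)) (norm_nonneg _)
  rw [hid]
  have h9 : ∀ a b c d : ℂ, ‖a - d‖ ≤ ‖c‖ + ‖b - c‖ + ‖a - b‖ + ‖d‖ := fun a b c d => by
    have h3 : a - d = c + (b - c) + (a - b) - d := by ring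
    rw [h3]
    linarith [norm_sub_le (c + (b - c) + (a - b)) d, norm_add_le (c + (b - c)) (a - b),
      norm_add_le c (b - c)]
  exact (h9 _ _ _ _).trans (add_le_add (add_le_add (add_le_add e4 e3) e2) e1)

end

theorem rho_le (hseg : SegStmt) {C T Y : ℝ} {U : Finset ℝ} {m : ℝ → ℕ} (hZ : Zs C T U m)
    (hT : 0 < T) (hY : 0 < Y) (hL : 0 < Real.log T)
    (hcr : ∀ w : ℂ, |w.re - 3 * T / 2| ≤ T / 20 → 1 / (Y * Real.log T) ≤ -w.im → -w.im ≤ 2 →
      ‖ld w‖ ≤ Real.log T ^ 3) {z : ℂ} (h1 : |z.re - 3 * T / 2| ≤ T / 20)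
    (h2 : 1 / (Y * Real.log T) ≤ -z.im) (h3 : -z.im + Y / Real.log T ≤ 2) :
    DifferentiableAt ℂ (rho (Y / Real.log T)) z ∧
      ‖rho (Y / Real.log T) z‖ ≤ Real.exp (Y * Real.log T ^ 2) := by
  have hy : 0 < Y / Real.log T := div_pos hY hL
  have hy0 : 0 < 1 / (Y * Real.log T) := by positivity
  have hre : 0 < z.re := by linarith [(abs_le.1 h1).1]
  have hne : ∀ w : ℂ, w.re = z.re → w.im ≤ z.im → zf w ≠ 0 := by
    intro w h4 h5 h0
    obtain ⟨u, _, hu⟩ := (hZ.zeros w (by rw [h4]; linarith)).1 h0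
    rw [hu, ofReal_im] at h5
    linarith
  have hda : ∀ w : ℂ, w.re = z.re → DifferentiableAt ℂ zf w := fun w h4 =>
    zf_differentiableOn.differentiableAt
      ((isOpen_lt continuous_const continuous_re).mem_nhds (show 0 < w.re by linarith))
  obtain ⟨y, hyy⟩ : ∃ y : ℝ, y = Y / Real.log T := ⟨_, rfl⟩
  rw [← hyy] at hy h3 ⊢
  have hr : ∀ s : ℝ, (z + s * (z - y * I - z)).re = z.re := fun s => by simp
  have hi : ∀ s : ℝ, (z + s * (z - y * I - z)).im = z.im - s * y := fun s => by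
    simp [sub_eq_add_neg]
  constructor
  · exact ((hda (z - y * I) (by simp)).comp z (f := fun z => z - y * I) (by fun_prop)).div
      (hda z rfl) (hne z rfl le_rfl)
  · have h4 := ((hseg z (z - y * I) hre (by simpa using hre) fun s h5 _ =>
      hne _ (hr s) (by rw [hi]; nlinarith)).2 (Real.log T ^ 3) fun s h5 h6 =>
        hcr _ (by rw [hr]; exact h1) (by rw [hi]; nlinarith) (by rw [hi]; nlinarith)).1
    refine h4.trans (le_of_eq ?_)
    have h7 : ‖z - y * I - z‖ = y := by simp [abs_of_pos hy]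
    rw [h7, hyy]
    congr 1
    field_simp

theorem nums {T L Y D W : ℝ} (hY : 7 ≤ Y) (hL : 1 ≤ L) (hW : 1 ≤ W)
    (hT : (Y + 3) * L ^ 2 ≤ T / 8) (hE : 24 * Real.exp ((12 * Y) ^ 2) * W ≤ Real.exp L)
    (hD : 0 < D) (hDY : D * Y = L / 4) :
    2 * (Real.exp (Y * L ^ 2) * (2 * Real.exp (1 + L) * Real.exp (-(T / 4)))) ≤ 1 ∧
    3 * (W * (2 * Real.exp (1 + L))) * Real.exp (-(T / 4) / 2) ≤ 1 ∧
    24 * Real.exp ((12 * Y) ^ 2) * W *
      Real.exp (-(12 * Y - 3 / 4) * (L - D) + (L - 3 * D + D) * (12 * Y)) ≤ 1 := by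
  have hL2 : L ≤ L ^ 2 := by nlinarith
  have hYL : 0 ≤ Y * L ^ 2 := by positivity
  have he : Real.exp 1 ≤ 3 := by linarith [Real.exp_one_lt_d9]
  have h1 : 1 ≤ Real.exp ((12 * Y) ^ 2) := Real.one_le_exp (by positivity)
  have b0 : 24 * W ≤ Real.exp L := le_trans (by nlinarith) hE
  have h2 : Real.exp 1 * W ≤ 3 * W := mul_le_mul_of_nonneg_right he (by linarith)
  refine ⟨?_, ?_, ?_⟩
  · calc _ = 4 * Real.exp 1 * Real.exp (Y * L ^ 2 + L + -(T / 4)) := by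
          rw [Real.exp_add, Real.exp_add, Real.exp_add]
          ring
      _ ≤ Real.exp L * Real.exp (Y * L ^ 2 + L + -(T / 4)) :=
          mul_le_mul_of_nonneg_right (by linarith) (Real.exp_pos _).le
      _ ≤ 1 := by
          rw [← Real.exp_add]
          exact Real.exp_le_one_iff.2 (by linarith)
  · calc _ = 6 * (Real.exp 1 * W) * Real.exp (L + -(T / 4) / 2) := by
          rw [Real.exp_add, Real.exp_add]
          ring
      _ ≤ Real.exp L * Real.exp (L + -(T / 4) / 2) :=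
          mul_le_mul_of_nonneg_right (by linarith) (Real.exp_pos _).le
      _ ≤ 1 := by
          rw [← Real.exp_add]
          exact Real.exp_le_one_iff.2 (by linarith)
  · refine (mul_le_mul_of_nonneg_right hE (Real.exp_pos _).le).trans ?_
    rw [← Real.exp_add]
    exact Real.exp_le_one_iff.2 (by linarith)

theorem rep : CrStmt → SegStmt → RepStmt := by
  intro hcr hseg C Y hC hY
  have hZ := Z_ge (show (1 : ℝ) < 5 / 4 by norm_num)
  have hsm := ((Real.isLittleO_pow_log_id_atTop (n := 2)).const_mul_left (Y + 3)).bound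
    (show (0 : ℝ) < 1 / 8 by norm_num)
  filter_upwards [hcr C Y hC (by linarith), Real.tendsto_log_atTop.eventually_ge_atTop (Y + 1),
    eventually_ge_atTop 2500, eventually_ge_atTop (24 * Real.exp ((12 * Y) ^ 2) * Z (5 / 4)),
    hsm] with T hcT hL hT hT1 hT2
  have hT0 : 0 < T := by linarith
  have hY0 : 0 < Y := by linarith
  obtain ⟨L, hLT⟩ : ∃ L : ℝ, L = Real.log T := ⟨_, rfl⟩
  have hTL : Real.exp L = T := by rw [hLT, Real.exp_log hT0]
  have hL1 : 1 ≤ L := by linarith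
  have hL0 : 0 < L := by linarith
  have hT3 : (Y + 3) * L ^ 2 ≤ T / 8 := by
    rw [Real.norm_eq_abs, Real.norm_eq_abs, id, abs_of_pos hT0, ← hLT] at hT2
    linarith [le_abs_self ((Y + 3) * L ^ 2)]
  obtain ⟨D, hD⟩ : ∃ D : ℝ, D = L / (4 * Y) := ⟨_, rfl⟩
  have hD0 : 0 < D := by rw [hD]; positivity
  have hDY : D * Y = L / 4 := by rw [hD]; field_simp
  have hDL : 28 * D ≤ L := by nlinarith
  obtain ⟨k, k1, k2, k3, k4⟩ := H91.ker (L - 3 * D) D hD0
  have hk : Ker (L - 3 * D) D k := ⟨k1, k2, k3, k4⟩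
  have hpi : (2 * Real.pi * I : ℂ) ≠ 0 := two_pi_I_ne_zero
  have hn : ‖(2 * Real.pi * I : ℂ)‖ = 2 * Real.pi := by simp [abs_of_pos Real.pi_pos]
  have h1 : ‖(2 * Real.pi * I : ℂ)⁻¹‖ ≤ 1 := by
    rw [norm_inv, hn]
    exact inv_le_one_of_one_le₀ (by linarith [Real.pi_gt_three])
  have hE : 1 ≤ Real.exp ((12 * Y) ^ 2) := Real.one_le_exp (by positivity)
  refine ⟨fun n => (2 * Real.pi * I)⁻¹ * J k 0 (fun ζ => np (0 + I * ζ) n) (-1 / L),
    ⟨fun n => ?_, fun n _ hn => ?_⟩, fun U m hZs x hx => ?_⟩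
  · have h2 := chi_le H91.kmInt hk hD0 hL1 (by linarith) n
    have h3 : L / D = 4 * Y := by rw [hD]; field_simp
    rw [h3] at h2
    rw [norm_mul]
    exact (mul_le_of_le_one_left (norm_nonneg _) h1).trans h2
  · have h2 := chi_one hk (G := 12 * Y) hL0 (by linarith) hD0 hn
    have h3 : ((1 - 1 / Y) * Real.log T - (L - 3 * D)) * (12 * Y) = -3 * L := by
      rw [← hLT, hD]
      field_simp
      ring
    have h4 : (2 * Real.pi * I)⁻¹ * J k 0 (fun ζ => np (0 + I * ζ) n) (-1 / L) - 1 =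
        (2 * Real.pi * I)⁻¹ * (J k 0 (fun ζ => np (0 + I * ζ) n) (-1 / L) - 2 * Real.pi * I) := by
      rw [mul_sub, inv_mul_cancel₀ hpi]
    have h5 : Real.exp (-3 * L) = 1 / T ^ 2 / T := by
      rw [← hTL, div_div, ← pow_succ, ← Real.exp_nat_mul, one_div, ← Real.exp_neg]
      congr 1
      push_cast
      ring
    rw [h3, h5, mul_div_assoc'] at h2
    rw [h4, norm_mul]
    refine (mul_le_of_le_one_left (norm_nonneg _) h1).trans (h2.trans ?_)
    rw [div_le_iff₀ hT0, mul_comm]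
    refine mul_le_mul_of_nonneg_left (le_trans ?_ hT1) (by positivity)
    gcongr
  have hs1 : 50 ≤ √T := Real.le_sqrt_of_sq_le (by linarith)
  have hs2 : √T ^ 2 = T := Real.sq_sqrt hT0.le
  have hs3 : √T / 2 ≤ T / 100 := by nlinarith
  have hy0 : 0 < 1 / (Y * L) := by positivity
  have hy1 : 1 / (Y * L) + Y / L ≤ 1 := by
    have h2 : 1 / (Y * L) ≤ 1 / L := one_div_le_one_div_of_le hL0 (by nlinarith)
    have h3 : 1 / L + Y / L ≤ 1 := by
      rw [← add_div, div_le_one hL0]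
      linarith
    linarith
  have hy2 : -1 / L < 0 := div_neg_of_neg_of_pos (by norm_num) hL0
  obtain ⟨w, hw⟩ : ∃ w : ℂ, w = x - (1 / (Y * L) : ℝ) * I := ⟨_, rfl⟩
  have hwr : w.re = x := by
    rw [hw, sub_re, ofReal_re, re_ofReal_mul, I_re, mul_zero, sub_zero]
  have hwi : w.im = -(1 / (Y * L)) := by
    rw [hw, sub_im, ofReal_im, im_ofReal_mul, I_im, mul_one, zero_sub]
  have hrho : ∀ ζ : ℂ, |ζ.re| ≤ √T / 2 → -1 ≤ ζ.im → ζ.im ≤ -1 / L →
      DifferentiableAt ℂ (rho (Y / L)) (w + ζ) ∧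
        ‖rho (Y / L) (w + ζ)‖ ≤ Real.exp (Y * L ^ 2) := by
    intro ζ h2 h3 h4
    rw [hLT]
    refine rho_le hseg hZs hT0 hY0 (hLT ▸ hL0) (hcT U m hZs) ?_ ?_ ?_
    · rw [add_re, hwr]
      obtain ⟨h5, h6⟩ := abs_le.1 hx
      obtain ⟨h7, h8⟩ := abs_le.1 h2
      exact abs_le.2 ⟨by linarith, by linarith⟩
    · rw [add_im, hwi, ← hLT]
      linarith
    · rw [add_im, hwi, ← hLT]
      linarith
  have hl : ∀ n : ℕ, len T Y < n → L - D ≤ Real.log n := by
    intro n h2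
    have h3 : T ^ (1 - 1 / (4 * Y)) < n := (Nat.floor_lt (by positivity)).1 h2
    have h4 := Real.log_le_log (by positivity) h3.le
    rw [Real.log_rpow hT0, ← hLT] at h4
    refine le_trans (le_of_eq ?_) h4
    rw [hD]
    ring
  obtain ⟨hA, hc⟩ := core_le hk (by linarith) hD0 hL1 (by linarith) (y := Y / L) (X := √T / 2)
    (G := 12 * Y) (B := Real.exp (Y * L ^ 2)) (by positivity) (by linarith) (by linarith) hl
    (w := w) (by linarith)
    (fun ζ hζ => ((hrho ζ hζ.1 hζ.2.1 hζ.2.2).1.comp ζ (f := fun ζ => w + ζ)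
      (by fun_prop)).differentiableWithinAt)
    fun ζ h2 h3 h4 => (hrho ζ h2.le h3 h4).2
  have h0 : dp (fun n => rc (Y / L : ℝ) 0 n * J k 0 (fun ζ => np (0 + I * ζ) n) (-1 / L))
      (len T Y) w = 2 * Real.pi * I * RC T Y (fun n => (2 * Real.pi * I)⁻¹ *
        J k 0 (fun ζ => np (0 + I * ζ) n) (-1 / L)) x := by
    unfold RC dp ds cf
    rw [← hLT, ← hw, Finset.mul_sum]
    refine Finset.sum_congr rfl fun n _ => ?_
    field_simp
  have hI : (∫ s in (-(√T / 2))..(√T / 2), ‖rho (Y / L) (w + (s + (-1 / L : ℝ) * I))‖ *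
      km D (s + (-1 / L : ℝ) * I)) = ∫ s in (-(√T / 2))..(√T / 2),
      ‖rho (Y / Real.log T) ((x + s : ℝ) - (1 / (Y * Real.log T) + 1 / Real.log T : ℝ) * I)‖ *
        km (Real.log T / (4 * Y)) (s - (1 / Real.log T : ℝ) * I) := by
    rw [← hLT, ← hD, hw]
    congr 1
    ext s
    congr 3 <;> push_cast <;> ring
  have hX2 : (√T / 2) ^ 2 = T / 4 := by rw [div_pow, hs2]; norm_num
  obtain ⟨b1, b2, b3⟩ := nums hY hL1 hZ hT3 (hT1.trans hTL.ge) hD0 hDY
  rw [h0, hI, hX2, norm_mul, hn] at hc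
  rw [hI] at hA
  have h6 := norm_nonneg (RC T Y (fun n => (2 * Real.pi * I)⁻¹ *
    J k 0 (fun ζ => np (0 + I * ζ) n) (-1 / L)) x)
  have h7 := mul_le_mul_of_nonneg_right Real.pi_gt_three.le h6
  linarith

end Pool.Agent.MP_ca0a54_nt.H16
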